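import Pool.Agent.N647.NG.SurfT

set_option autoImplicit false

/-! The engine for the traces on `H²` of fibrations in surfaces over well distributed families of
coefficients, with a sequence of weights; after `Pool.Agent.N647.NG.nagN`, `anaN`, `surfT`. -/

namespace Pool.Agent.Helper94.SF

open Finset Polynomial NumberField IsDedekindDomain Filter
open Pool.Agent.N842.HS (VT mem_VT cf norm_card)
open Pool.Agent.N647.TS
open Pool.Agent.N647.NG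

section weights
variable {K : Type} [Field K] [NumberField K]

/-- the first weights of the sequence -/
def fw (w : ℕ → HeightOneSpectrum (𝓞 K) → ℝ) (B T : ℕ) : Set (HeightOneSpectrum (𝓞 K) → ℝ) :=
  w '' {n | n < T ^ B}

lemma fw_fin (w : ℕ → HeightOneSpectrum (𝓞 K) → ℝ) (B T : ℕ) : (fw w B T).Finite ∧ (fw w B T).ncard ≤ T ^ B := by
  have h1 : {n : ℕ | n < T ^ B} = ((range (T ^ B) : Finset ℕ) : Set ℕ) := by
    ext n
    simp
  have h2 : {n : ℕ | n < T ^ B}.Finite := by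
    rw [h1]
    exact Finset.finite_toSet _
  refine ⟨h2.image _, (Set.ncard_image_le h2).trans ?_⟩
  rw [h1, Set.ncard_coe_finset, card_range]

/-- all the weights which are used for the sums up to `T` -/
noncomputable def WT (w : ℕ → HeightOneSpectrum (𝓞 K) → ℝ) (B T : ℕ) : Set (HeightOneSpectrum (𝓞 K) → ℝ) :=
  if 2 ≤ T then insert (fun _ => (1 : ℝ)) (Wt (fw w B T) B T ∪
    (fun u : HeightOneSpectrum (𝓞 K) → ℝ => fun v => u v * min ((Ideal.absNorm v.asIdeal : ℝ) / T) 1) '' fw w B T) else ∅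

lemma WT_fin (w : ℕ → HeightOneSpectrum (𝓞 K) → ℝ) (B T : ℕ) :
    (WT w B T).Finite ∧ (WT w B T).ncard ≤ T ^ (2 * B + 7) := by
  unfold WT
  split_ifs with hT
  · obtain ⟨h1, h2⟩ := fw_fin w B T
    obtain ⟨h3, h4⟩ := Wt_fin (fw w B T) h1 B T T hT le_rfl h2
    refine ⟨(h3.union (h1.image _)).insert _, ?_⟩
    refine (Set.ncard_insert_le _ _).trans ?_
    have h5 := Set.ncard_union_le (Wt (fw w B T) B T)
      ((fun u : HeightOneSpectrum (𝓞 K) → ℝ => fun v => u v * min ((Ideal.absNorm v.asIdeal : ℝ) / T) 1) '' fw w B T)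
    have h6 := (Set.ncard_image_le (f := fun u : HeightOneSpectrum (𝓞 K) → ℝ => fun v =>
      u v * min ((Ideal.absNorm v.asIdeal : ℝ) / T) 1) h1).trans h2
    have h7 : T ^ B ≤ T ^ (2 * B + 5) := Nat.pow_le_pow_right (by omega) (by omega)
    have h8 : 1 ≤ T ^ (2 * B + 5) := Nat.one_le_pow _ _ (by omega)
    have h9 : T ^ (2 * B + 7) = T ^ (2 * B + 5) * T ^ 2 := by rw [← pow_add]
    have h10 : 4 ≤ T ^ 2 := by nlinarith
    rw [h9]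
    nlinarith
  · exact ⟨Set.finite_empty, by rw [Set.ncard_empty]; exact Nat.zero_le _⟩

lemma min_abs (v : HeightOneSpectrum (𝓞 K)) (T : ℕ) : |min ((Ideal.absNorm v.asIdeal : ℝ) / T) 1| ≤ 1 := by
  have h8 : 0 ≤ min ((Ideal.absNorm v.asIdeal : ℝ) / T) 1 := le_min (by positivity) zero_le_one
  rw [abs_of_nonneg h8]
  exact min_le_right _ _

lemma WT_le (w : ℕ → HeightOneSpectrum (𝓞 K) → ℝ) (hw : ∀ n v, |w n v| ≤ 1) (B T : ℕ) (u : HeightOneSpectrum (𝓞 K) → ℝ)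
    (hu : u ∈ WT w B T) (v : HeightOneSpectrum (𝓞 K)) : |u v| ≤ 1 := by
  unfold WT at hu
  split_ifs at hu with hT
  · rcases Set.mem_insert_iff.1 hu with h1 | h1 | h1
    · rw [h1]
      simp
    · exact Wt_le _ (fun u' hu' v' => by
        obtain ⟨n, _, rfl⟩ := hu'
        exact hw n v') B T u h1 v
    · obtain ⟨u', ⟨n, _, rfl⟩, rfl⟩ := h1
      beta_reduce
      rw [abs_mul]
      exact mul_le_one₀ (hw n v) (abs_nonneg _) (min_abs v T)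
  · exact absurd hu (Set.notMem_empty _)

lemma one_WT (w : ℕ → HeightOneSpectrum (𝓞 K) → ℝ) (B T : ℕ) (hT : 2 ≤ T) : (fun _ => (1 : ℝ)) ∈ WT w B T := by
  unfold WT
  rw [if_pos hT]
  exact Set.mem_insert _ _

lemma min_WT (w : ℕ → HeightOneSpectrum (𝓞 K) → ℝ) (B T : ℕ) (hT : 2 ≤ T) (n : ℕ) (hn : n < T ^ B) :
    (fun v => w n v * min ((Ideal.absNorm v.asIdeal : ℝ) / T) 1) ∈ WT w B T := by
  unfold WT
  rw [if_pos hT]
  exact Set.mem_insert_of_mem _ (Or.inr ⟨w n, ⟨n, hn, rfl⟩, rfl⟩)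

lemma Wt_WT (w : ℕ → HeightOneSpectrum (𝓞 K) → ℝ) (B T : ℕ) (hT : 2 ≤ T) (n : ℕ) (hn : n < T ^ B)
    (u : HeightOneSpectrum (𝓞 K) → ℝ) (hu : u ∈ Wt {w n} B T) : u ∈ WT w B T := by
  unfold WT
  rw [if_pos hT]
  refine Set.mem_insert_of_mem _ (Or.inl ?_)
  obtain ⟨z, ⟨hz1, hz2⟩, rfl⟩ := hu
  refine ⟨z, ⟨?_, hz2⟩, rfl⟩
  rw [Set.mem_singleton_iff] at hz1
  exact ⟨n, hn, hz1.symm⟩

end weights

variable {K : Type} [Field K] [NumberField K] {m D : ℕ}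

lemma ev_two (δ : ℝ) (hδ : 0 < δ) : ∃ y₂ : ℕ, ∀ T : ℕ, y₂ ≤ T →
    (2 : ℝ) * (T : ℝ) ^ (1 / 2 + δ / 2) ≤ (T : ℝ) ^ (1 / 2 + δ) := by
  have hev : ∀ᶠ T : ℕ in atTop, (2 : ℝ) ≤ (T : ℝ) ^ (δ / 2) := by
    have h1 : Tendsto (fun x : ℝ => x ^ (δ / 2)) atTop atTop := tendsto_rpow_atTop (by positivity)
    exact (h1.comp tendsto_natCast_atTop_atTop).eventually (eventually_ge_atTop _)
  obtain ⟨y₂, hy₂⟩ := eventually_atTop.1 hev
  refine ⟨y₂ + 1, fun T hT => ?_⟩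
  have hT0 : (0 : ℝ) < T := by exact_mod_cast (by omega : 0 < T)
  have h7 := hy₂ T (by omega)
  have h8 : (T : ℝ) ^ (1 / 2 + δ) = (T : ℝ) ^ (δ / 2) * (T : ℝ) ^ (1 / 2 + δ / 2) := by
    rw [← Real.rpow_add hT0]
    congr 1
    ring
  rw [h8]
  exact mul_le_mul_of_nonneg_right h7 (by positivity)

open Classical in
/-- the engine for the sums of the traces on `H¹` of the fibres -/
theorem nag_eng (hm : 1 ≤ m) (F₀ : (MvPolynomial (Fin m) (𝓞 K))[X]) (h : Fin D → (MvPolynomial (Fin m) (𝓞 K))[X])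
    {g' : ℕ} (hF : F₀.Monic) (hd : F₀.natDegree = 2 * g' + 1) (hh : ∀ i, (h i).natDegree < 2 * g' + 1) (r C₀ : ℝ)
    (S : Set (HeightOneSpectrum (𝓞 K))) (hS : S.Finite) (hs : ∀ v ∉ S, SepV v h)
    (hb : ∀ v ∉ S, |(cc v F₀ h : ℝ) - cb v h - r * (Ideal.absNorm v.asIdeal : ℝ) ^ m| ≤
      C₀ * ((Ideal.absNorm v.asIdeal : ℝ) ^ m / Real.sqrt (Ideal.absNorm v.asIdeal)))
    (P : MvPolynomial (Fin D) (𝓞 K)) (hP : P ≠ 0)
    {g : ℕ} (ω : Fin g → 𝓞 K) (hω : Submodule.span ℤ (Set.range ω) = ⊤) (δ : ℝ) (hδ : 0 < δ) (A B : ℕ) :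
    ∃ Me y₀ : ℕ, ∀ w : ℕ → HeightOneSpectrum (𝓞 K) → ℝ, (∀ n v, |w n v| ≤ 1) →
    ∃ R : ℕ → (Fin (D * g) → ℕ) → Prop,
      (∀ (S : Finset ℕ) (t : ℕ → Fin (D * g) → ℕ) (H y : ℕ), WellN S t H → y₀ ≤ y →
        ∀ E : (Fin (D * g) → ℕ) → Prop, (∀ m, (∀ T : ℕ, y ≤ T → T ^ Me ≤ 2 * H + 1 → R T m) → E m) →
        ((S.filter fun n => ¬ E (t n)).card : ℝ) ≤ 1 / (y : ℝ) ^ A * S.card) ∧
      (∀ (n : Fin (D * g) → ℕ) (T : ℕ), y₀ ≤ T → R T n → ∀ Rb : Set (HeightOneSpectrum (𝓞 K)),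
        (∀ v ∈ Rb, MvPolynomial.eval (cf ω n) P ∈ v.asIdeal) → ∀ u ∈ WT w B T,
        |∑ v ∈ (VT K T).filter (fun v => v ∉ Rb), u v * ((AA (mkv v) (mem F₀ h (cf ω n)) + r) * Real.log (Ideal.absNorm v.asIdeal))| ≤
          (T : ℝ) ^ (1 / 2 + δ)) := by
  obtain ⟨Φ, hΦ⟩ : ∃ Φ : ∀ v : HeightOneSpectrum (𝓞 K), (Fin D → 𝓞 K ⧸ v.asIdeal) → ℝ, Φ = fun v u => Ag (mkv v) F₀ h u + r := ⟨_, rfl⟩
  obtain ⟨C₁, hC₁⟩ : ∃ C₁ : ℝ, C₁ = 2 * g' + |r| + (2 + 2 * C₀ ^ 2) + |C₀| := ⟨_, rfl⟩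
  have hC₁0 : 0 ≤ C₁ := by
    rw [hC₁]
    positivity
  have h2 : {v : HeightOneSpectrum (𝓞 K) | (2 : 𝓞 K) ∈ v.asIdeal}.Finite := finite_dvd 2 two_ne_zero
  -- the bounds for the averages
  have hbd1 : ∀ v ∉ S ∪ {v : HeightOneSpectrum (𝓞 K) | (2 : 𝓞 K) ∈ v.asIdeal}, Bd C₁ 0 v (Φ v) := by
    intro v hv
    rw [Set.mem_union, not_or] at hv
    rw [hΦ, hC₁]
    exact Bd_main hm F₀ h hF hd hh r C₀ v hv.2 (hs v hv.1) (hb v hv.1)
  obtain ⟨C₂, hC₂0, hC₂⟩ := upgrade Φ 0 _ (hS.union h2) C₁ hC₁0 hbd1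
  -- the bounds for the bad part
  obtain ⟨s, hs'⟩ : ∃ s, P.coeff s ≠ 0 := by
    by_contra hcon
    push Not at hcon
    exact hP (MvPolynomial.ext _ _ fun s => by rw [hcon s, MvPolynomial.coeff_zero])
  obtain ⟨Ψ, hΨ⟩ : ∃ Ψ : ∀ v : HeightOneSpectrum (𝓞 K), (Fin D → 𝓞 K ⧸ v.asIdeal) → ℝ,
    Ψ = fun v u => |Φ v u| * (if MvPolynomial.eval u (MvPolynomial.map (mkv v) P) = 0 then 1 else 0) := ⟨_, rfl⟩
  obtain ⟨C₃, hC₃0, hC₃⟩ := upgrade Ψ 0 _ (finite_dvd (P.coeff s) hs') (C₂ + Real.sqrt (C₂ * P.totalDegree)) (by positivity) (by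
    intro v hv
    rw [hΨ]
    refine Bd_bad P v ?_ C₂ hC₂0 (Φ v) (hC₂ v)
    intro h0
    apply hv
    have h1 := congrArg (MvPolynomial.coeff s) h0
    rw [MvPolynomial.coeff_map, MvPolynomial.coeff_zero] at h1
    exact Ideal.Quotient.eq_zero_iff_mem.1 h1)
  obtain ⟨Me, y₁, hgen⟩ := genW (D := D) ω hω (δ / 2) (by positivity) A (2 * B + 7) (univ : Finset Bool)
    (fun b => if b then Φ else Ψ) (fun _ => 0)
    (fun b _ => by
      cases b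
      · exact ⟨C₃, hC₃0, fun v => hC₃ v⟩
      · exact ⟨C₂, hC₂0, fun v => hC₂ v⟩)
  obtain ⟨y₂, hy₂⟩ := ev_two δ hδ
  refine ⟨Me, y₁ + y₂ + 2, fun w hw1 => ⟨fun T n => ∀ u ∈ WT w B T, ∀ b ∈ (univ : Finset Bool),
    |∑ v ∈ VT K T, u v * (((if b then Φ else Ψ) v (rd ω v n) - 0) * Real.log (Ideal.absNorm v.asIdeal))| ≤ (T : ℝ) ^ (1 / 2 + δ / 2),
    fun S t H y hWell hy E hE => hgen S t H y hWell (by omega) (WT w B) (WT_fin w B)
      (fun T u hu v => WT_le w hw1 B T u hu v) E hE, fun n T hT hn R hR u hu => ?_⟩⟩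
  have e1 := hn u hu true (mem_univ _)
  have e2 := hn (fun _ => 1) (one_WT w B T (by omega)) false (mem_univ _)
  simp only [if_true, sub_zero] at e1
  simp only [Bool.false_eq_true, if_false, sub_zero, one_mul] at e2
  have hterm : ∀ v : HeightOneSpectrum (𝓞 K), AA (mkv v) (mem F₀ h (cf ω n)) + r = Φ v (rd ω v n) := by
    intro v
    rw [AA_mem, hΦ]
    rfl
  simp only [hterm]
  have e3 : ∑ v ∈ (VT K T).filter (fun v => v ∉ R), u v * (Φ v (rd ω v n) * Real.log (Ideal.absNorm v.asIdeal)) =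
      ∑ v ∈ VT K T, u v * (Φ v (rd ω v n) * Real.log (Ideal.absNorm v.asIdeal)) -
      ∑ v ∈ (VT K T).filter (fun v => v ∈ R), u v * (Φ v (rd ω v n) * Real.log (Ideal.absNorm v.asIdeal)) := by
    rw [← sum_filter_add_sum_filter_not (VT K T) (fun v => v ∈ R)]
    ring
  have hlog : ∀ v : HeightOneSpectrum (𝓞 K), 0 ≤ Real.log (Ideal.absNorm v.asIdeal) := fun v => Real.log_nonneg (q_one v)
  have e4 : |∑ v ∈ (VT K T).filter (fun v => v ∈ R), u v * (Φ v (rd ω v n) * Real.log (Ideal.absNorm v.asIdeal))| ≤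
      ∑ v ∈ VT K T, Ψ v (rd ω v n) * Real.log (Ideal.absNorm v.asIdeal) := by
    refine (abs_sum_le_sum_abs _ _).trans ?_
    have hΨ0 : ∀ v u, 0 ≤ Ψ v u := by
      intro v u
      rw [hΨ]
      exact mul_nonneg (abs_nonneg _) (by split_ifs <;> norm_num)
    refine le_trans (sum_le_sum fun v hv => ?_) (sum_le_sum_of_subset_of_nonneg (filter_subset (fun v => v ∈ R) (VT K T)) fun v _ _ => mul_nonneg (hΨ0 _ _) (hlog v))
    rw [mem_filter] at hv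
    have h3 : Ψ v (rd ω v n) = |Φ v (rd ω v n)| := by
      rw [hΨ]
      beta_reduce
      rw [if_pos, mul_one]
      have h4 : MvPolynomial.eval (rd ω v n) (MvPolynomial.map (mkv v) P) = mkv v (MvPolynomial.eval (cf ω n) P) := by
        rw [MvPolynomial.eval_map]
        exact (MvPolynomial.eval₂_comp_left (mkv v) (RingHom.id _) (cf ω n) P).symm.trans rfl |>.symm ▸ rfl
      rw [h4]
      exact Ideal.Quotient.eq_zero_iff_mem.2 (hR v hv.2)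
    rw [h3, abs_mul, abs_mul, abs_of_nonneg (hlog v)]
    have h5 := WT_le w hw1 B T u hu v
    have h6 : 0 ≤ |Φ v (rd ω v n)| * Real.log (Ideal.absNorm v.asIdeal) := mul_nonneg (abs_nonneg _) (hlog v)
    nlinarith
  have e5 := (le_abs_self _).trans e2
  have e6 := hy₂ T (by omega)
  rw [e3]
  refine (abs_sub _ _).trans ?_
  linarith

open Classical in
/-- the engine for the sums and the Dirichlet polynomials of the traces on `H²` -/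
theorem surf_eng (k : ℕ) (F₀ : (MvPolynomial (Fin (m + 1)) (𝓞 K))[X]) (h : Fin D → (MvPolynomial (Fin (m + 1)) (𝓞 K))[X])
    {g' : ℕ} (hF : F₀.Monic) (hd : F₀.natDegree = 2 * g' + 1) (hh : ∀ i, (h i).natDegree < 2 * g' + 1) (r C₀ : ℝ)
    (S : Set (HeightOneSpectrum (𝓞 K))) (hS : S.Finite) (hs : ∀ v ∉ S, SepV v h)
    (hb : ∀ v ∉ S, |(cc v F₀ h : ℝ) - cb v h - r * (Ideal.absNorm v.asIdeal : ℝ) ^ (m + 1)| ≤
      C₀ * ((Ideal.absNorm v.asIdeal : ℝ) ^ (m + 1) / Real.sqrt (Ideal.absNorm v.asIdeal)))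
    (P : MvPolynomial (Fin D) (𝓞 K)) (hP : P ≠ 0)
    {g : ℕ} (ω : Fin g → 𝓞 K) (hω : Submodule.span ℤ (Set.range ω) = ⊤) (δ : ℝ) (hδ : 0 < δ) (A B : ℕ) :
    ∃ Me y₀ : ℕ, ∀ w : ℕ → HeightOneSpectrum (𝓞 K) → ℝ, (∀ n v, |w n v| ≤ 1) →
    ∃ R : ℕ → (Fin (D * g) → ℕ) → Prop,
      (∀ (S : Finset ℕ) (t : ℕ → Fin (D * g) → ℕ) (H y : ℕ), WellN S t H → y₀ ≤ y →
        ∀ E : (Fin (D * g) → ℕ) → Prop, (∀ m, (∀ T : ℕ, y ≤ T → T ^ Me ≤ 2 * H + 1 → R T m) → E m) →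
        ((S.filter fun n => ¬ E (t n)).card : ℝ) ≤ 1 / (y : ℝ) ^ A * S.card) ∧
      (∀ (n : Fin (D * g) → ℕ) (y X : ℕ), y₀ ≤ y → (∀ T : ℕ, y ≤ T → T ≤ X → R T n) → ∀ Rb : Set (HeightOneSpectrum (𝓞 K)),
        (∀ v ∈ Rb, MvPolynomial.eval (cf ω n) P ∈ v.asIdeal) →
        (∀ T : ℕ, y ≤ T → T ≤ X → ∀ j < T ^ B,
          |∑ v ∈ (VT K T).filter (fun v => v ∉ Rb), w j v * ((BB k (mkv v) (mem F₀ h (cf ω n)) - (2 + r) * Ideal.absNorm v.asIdeal) *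
            Real.log (Ideal.absNorm v.asIdeal))| ≤ (T : ℝ) ^ (3 / 2 + δ)) ∧
        (∀ T₁ T₂ : ℕ, y ≤ T₁ → T₁ ≤ T₂ → T₂ ≤ X → ∀ j < T₁ ^ B, ∀ z : ℂ, 3 / 2 + δ ≤ z.re → |z.im| ≤ (T₁ : ℝ) ^ B →
          ‖∑ v ∈ (VT K T₂).filter (fun v => v ∉ Rb ∧ T₁ < Ideal.absNorm v.asIdeal),
            ((w j v * ((BB k (mkv v) (mem F₀ h (cf ω n)) - (2 + r) * Ideal.absNorm v.asIdeal) * Real.log (Ideal.absNorm v.asIdeal)) : ℝ) : ℂ) *
              (Ideal.absNorm v.asIdeal : ℂ) ^ (-z)‖ ≤ (T₁ : ℝ) ^ (3 / 2 + δ - z.re))) := by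
  obtain ⟨y₁, hy₁, hdet⟩ := surf_det (K := K) δ hδ (2 * g') (by positivity)
  obtain ⟨C, hC0, hC⟩ := AA_bound (by omega) F₀ h hF hd hh r C₀ S hS hs hb
  obtain ⟨y₂, hana⟩ := ana_det (K := K) (δ / 2) (by positivity) C hC0
  obtain ⟨Me, y₃, hnag⟩ := nag_eng (by omega) F₀ h hF hd hh r C₀ S hS hs hb P hP ω hω (δ / 8) (by positivity) A B
  refine ⟨Me, y₁ + y₂ + y₃ + 2, fun w hw1 => ?_⟩
  obtain ⟨R, hR1, hR2⟩ := hnag w hw1
  refine ⟨R, fun S t H y hWell hy E hE => hR1 S t H y hWell (by omega) E hE, fun n y X hy hRn Rb hRb => ?_⟩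
  obtain ⟨h3, h4⟩ := mem_monic F₀ h hF hd hh (cf ω n)
  refine ⟨fun T hyT hTX j hj => ?_, fun T₁ T₂ hyT hT12 hTX j hj z hz1 hz2 => ?_⟩
  · obtain ⟨h5, _⟩ := hdet (fun v => AA (mkv v) (mem F₀ h (cf ω n)) + r)
      (fun v => BB k (mkv v) (mem F₀ h (cf ω n)) - (2 + r) * Ideal.absNorm v.asIdeal) (fun v => BB_bound k _ h3 h4 r v) (w j) (hw1 j) Rb
    refine h5 T (by omega) ?_
    have h6 := hR2 n T (by omega) (hRn T hyT hTX) Rb hRb _ (min_WT w B T (by omega) j hj)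
    beta_reduce at h6
    refine h6.trans ?_
    apply Real.rpow_le_rpow_of_exponent_le (by exact_mod_cast (by omega : 1 ≤ T))
    linarith
  · obtain ⟨_, h5⟩ := hdet (fun v => AA (mkv v) (mem F₀ h (cf ω n)) + r)
      (fun v => BB k (mkv v) (mem F₀ h (cf ω n)) - (2 + r) * Ideal.absNorm v.asIdeal) (fun v => BB_bound k _ h3 h4 r v) (w j) (hw1 j) Rb
    refine h5 T₁ T₂ (by omega) z hz1 ?_
    refine hana B T₁ T₂ (by omega) {w j} (fun w' hw' v => by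
      rw [Set.mem_singleton_iff] at hw'
      rw [hw']
      exact hw1 j v) (fun v => AA (mkv v) (mem F₀ h (cf ω n)) + r) (fun v => hC v _) Rb (fun T hT1 hT2 w' hw' => ?_)
      T₁ T₂ le_rfl hT12 le_rfl (w j) (Set.mem_singleton _) (z - 1) ?_ ?_
    · have h7 : j < T ^ B := lt_of_lt_of_le hj (Nat.pow_le_pow_left hT1 B)
      have h6 := hR2 n T (by omega) (hRn T (by omega) (by omega)) Rb hRb w' (Wt_WT w B T (by omega) j h7 w' hw')
      have e : (1 / 2 + δ / 2 / 4 : ℝ) = 1 / 2 + δ / 8 := by ring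
      rw [e]
      exact h6
    · rw [Complex.sub_re, Complex.one_re]
      linarith
    · rw [Complex.sub_im, Complex.one_im, sub_zero]
      exact hz2

end Pool.Agent.Helper94.SF
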