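import Pool.Agent.Helper94.SF.Surf
import Pool.Agent.Helper94.BC.Conv

set_option autoImplicit false

/-! Traces on `H²` of fibrations in surfaces along metric sequences of coefficients. -/

namespace Pool.Agent.Helper94.SF

open Finset Polynomial NumberField IsDedekindDomain Filter MeasureTheory
open Pool.Agent.N842.HS (VT mem_VT cf norm_card)
open Pool.Agent.N647.TS
open Pool.Agent.N647.NG
open Pool.Agent.Helper94.EN

section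
variable {R κ : Type} [CommRing R] [CommRing κ] {m D : ℕ}

lemma BB_congr (k : ℕ) (φ : R →+* κ) (F₀ : (MvPolynomial (Fin (m + 1)) R)[X])
    (h : Fin D → (MvPolynomial (Fin (m + 1)) R)[X]) (c c' : Fin D → R) (hc : ∀ i, φ (c i) = φ (c' i)) :
    BB k φ (mem F₀ h c) = BB k φ (mem F₀ h c') := by
  have h1 : ∀ u : Fin m → κ, sf φ (mem F₀ h c) u = sf φ (mem F₀ h c') u := by
    intro u
    unfold sf mem
    rw [Polynomial.map_add, Polynomial.map_add, Polynomial.map_sum, Polynomial.map_sum]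
    congr 1
    refine sum_congr rfl fun i _ => ?_
    rw [Polynomial.map_mul, Polynomial.map_mul, Polynomial.map_C, Polynomial.map_C]
    congr 2
    simp only [MvPolynomial.coe_eval₂Hom, MvPolynomial.eval₂_C, RingHom.comp_apply, hc i]
  unfold BB
  simp only [h1]

end

variable {K : Type} [Field K] [NumberField K] {m D g : ℕ}

/-- the coefficients with integer coordinates -/
def cz (ω : Fin g → 𝓞 K) (z : Fin D × Fin g → ℤ) (i : Fin D) : 𝓞 K := ∑ j, ((z (i, j) : ℤ) : 𝓞 K) * ω j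

lemma cf_md (ω : Fin g → 𝓞 K) (z : Fin D × Fin g → ℤ) (v : HeightOneSpectrum (𝓞 K)) {L : ℕ} (hL : 0 < L)
    (hv : rc v ∣ L) (i : Fin D) :
    mkv v (cf (D := D) ω (md L fun k => z (finProdFinEquiv.symm k)) i) = mkv v (cz ω z i) := by
  unfold cf cz mkv
  rw [map_sum, map_sum]
  refine sum_congr rfl fun k _ => ?_
  rw [map_mul, map_mul]
  congr 1
  rw [Ideal.Quotient.eq]
  have h1 := md_dvd hL hv (fun k => z (finProdFinEquiv.symm k)) (finProdFinEquiv (i, k))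
  rw [Equiv.symm_apply_apply] at h1
  obtain ⟨x, hx⟩ := h1
  have h3 : ((md L (fun k => z (finProdFinEquiv.symm k)) (finProdFinEquiv (i, k)) : ℕ) : 𝓞 K) - ((z (i, k) : ℤ) : 𝓞 K) =
      ((rc v : ℕ) : 𝓞 K) * ((x : ℤ) : 𝓞 K) := by
    have := congrArg (fun t : ℤ => (t : 𝓞 K)) hx
    push_cast at this
    exact this
  rw [h3]
  exact Ideal.mul_mem_right _ _ (rc_mem v)

lemma eval_md (ω : Fin g → 𝓞 K) (P : MvPolynomial (Fin D) (𝓞 K)) (z : Fin D × Fin g → ℤ) (v : HeightOneSpectrum (𝓞 K))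
    {L : ℕ} (hL : 0 < L) (hv : rc v ∣ L) (h : MvPolynomial.eval (cz ω z) P ∈ v.asIdeal) :
    MvPolynomial.eval (cf (D := D) ω (md L fun k => z (finProdFinEquiv.symm k))) P ∈ v.asIdeal := by
  have h1 : ∀ c : Fin D → 𝓞 K, mkv v (MvPolynomial.eval c P) = MvPolynomial.eval₂ (mkv v) (fun i => mkv v (c i)) P := by
    intro c
    exact MvPolynomial.eval₂_comp_left (mkv v) (RingHom.id (𝓞 K)) c P
  have h2 : mkv v (MvPolynomial.eval (cf (D := D) ω (md L fun k => z (finProdFinEquiv.symm k))) P) =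
      mkv v (MvPolynomial.eval (cz ω z) P) := by
    rw [h1, h1]
    congr 1
    funext i
    exact cf_md ω z v hL hv i
  have h3 : mkv v (MvPolynomial.eval (cz ω z) P) = 0 := Ideal.Quotient.eq_zero_iff_mem.2 h
  rw [h3] at h2
  exact Ideal.Quotient.eq_zero_iff_mem.1 h2

open Classical in
/-- the bounds for the sums and the Dirichlet polynomials -/
def SG (k : ℕ) (F₀ : (MvPolynomial (Fin (m + 1)) (𝓞 K))[X]) (h : Fin D → (MvPolynomial (Fin (m + 1)) (𝓞 K))[X]) (r : ℝ)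
    (P : MvPolynomial (Fin D) (𝓞 K)) (δ : ℝ) (B : ℕ) (w : ℕ → HeightOneSpectrum (𝓞 K) → ℝ) (Y X : ℝ)
    (c : Fin D → 𝓞 K) : Prop :=
  ∀ Rb : Set (HeightOneSpectrum (𝓞 K)), (∀ v ∈ Rb, MvPolynomial.eval c P ∈ v.asIdeal) →
    (∀ T : ℕ, Y ≤ T → T ≤ X → ∀ j < T ^ B,
      |∑ v ∈ (VT K T).filter (fun v => v ∉ Rb), w j v * ((BB k (mkv v) (mem F₀ h c) - (2 + r) * Ideal.absNorm v.asIdeal) *
        Real.log (Ideal.absNorm v.asIdeal))| ≤ (T : ℝ) ^ (3 / 2 + δ)) ∧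
    (∀ T₁ T₂ : ℕ, Y ≤ T₁ → T₁ ≤ T₂ → T₂ ≤ X → ∀ j < T₁ ^ B, ∀ z : ℂ, 3 / 2 + δ ≤ z.re → |z.im| ≤ (T₁ : ℝ) ^ B →
      ‖∑ v ∈ (VT K T₂).filter (fun v => v ∉ Rb ∧ T₁ < Ideal.absNorm v.asIdeal),
        ((w j v * ((BB k (mkv v) (mem F₀ h c) - (2 + r) * Ideal.absNorm v.asIdeal) * Real.log (Ideal.absNorm v.asIdeal)) : ℝ) : ℂ) *
          (Ideal.absNorm v.asIdeal : ℂ) ^ (-z)‖ ≤ (T₁ : ℝ) ^ (3 / 2 + δ - z.re))

open Classical in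
/-- the engine with the transfer to integer vectors -/
theorem surf_engZ (k : ℕ) (F₀ : (MvPolynomial (Fin (m + 1)) (𝓞 K))[X]) (h : Fin D → (MvPolynomial (Fin (m + 1)) (𝓞 K))[X])
    {g' : ℕ} (hF : F₀.Monic) (hd : F₀.natDegree = 2 * g' + 1) (hh : ∀ i, (h i).natDegree < 2 * g' + 1) (r C₀ : ℝ)
    (S : Set (HeightOneSpectrum (𝓞 K))) (hS : S.Finite) (hs : ∀ v ∉ S, SepV v h)
    (hb : ∀ v ∉ S, |(cc v F₀ h : ℝ) - cb v h - r * (Ideal.absNorm v.asIdeal : ℝ) ^ (m + 1)| ≤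
      C₀ * ((Ideal.absNorm v.asIdeal : ℝ) ^ (m + 1) / Real.sqrt (Ideal.absNorm v.asIdeal)))
    (P : MvPolynomial (Fin D) (𝓞 K)) (hP : P ≠ 0)
    (ω : Fin g → 𝓞 K) (hω : Submodule.span ℤ (Set.range ω) = ⊤) (δ : ℝ) (hδ : 0 < δ) (A B : ℕ) :
    ∃ Me y₀ : ℕ, ∀ w : ℕ → HeightOneSpectrum (𝓞 K) → ℝ, (∀ n v, |w n v| ≤ 1) →
    ∃ R : ℕ → (Fin (D * g) → ℕ) → Prop,
      (∀ (S : Finset ℕ) (t : ℕ → Fin (D * g) → ℕ) (H y : ℕ), WellN S t H → y₀ ≤ y →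
        ∀ E : (Fin (D * g) → ℕ) → Prop, (∀ m, (∀ T : ℕ, y ≤ T → T ^ Me ≤ 2 * H + 1 → R T m) → E m) →
        ((S.filter fun n => ¬ E (t n)).card : ℝ) ≤ 1 / (y : ℝ) ^ A * S.card) ∧
      (∀ (z : Fin D × Fin g → ℤ) (Y X : ℝ), (y₀ : ℝ) ≤ Y → ∀ L : ℕ, 0 < L → (∀ q : ℕ, 1 ≤ q → (q : ℝ) ≤ X → q ∣ L) →
        (∀ T : ℕ, Y ≤ T → T ≤ X → R T (md L fun k => z (finProdFinEquiv.symm k))) → SG k F₀ h r P δ B w Y X (cz ω z)) := by
  obtain ⟨Me, y₀, hmain⟩ := surf_eng k F₀ h hF hd hh r C₀ S hS hs hb P hP ω hω δ hδ A B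
  refine ⟨Me, y₀, fun w hw => ?_⟩
  obtain ⟨R, hR1, hR2⟩ := hmain w hw
  refine ⟨R, hR1, fun z Y X hY L hL hLq hRT Rb hRb => ?_⟩
  by_cases hX : (0 : ℝ) ≤ X
  swap
  · push Not at hX
    refine ⟨fun T _ hTX => ?_, fun T₁ T₂ _ hT hTX => ?_⟩
    · exact absurd (lt_of_le_of_lt hTX hX) (not_lt.2 (Nat.cast_nonneg _))
    · exact absurd (lt_of_le_of_lt hTX hX) (not_lt.2 (Nat.cast_nonneg _))
  obtain ⟨Xn, hXn⟩ : ∃ Xn : ℕ, Xn = ⌊X⌋₊ := ⟨_, rfl⟩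
  have hY0 : (0 : ℝ) ≤ Y := le_trans (Nat.cast_nonneg _) hY
  obtain ⟨Yn, hYn⟩ : ∃ Yn : ℕ, Yn = ⌈Y⌉₊ := ⟨_, rfl⟩
  have hXle : ∀ T : ℕ, (T : ℝ) ≤ X ↔ T ≤ Xn := fun T => by rw [hXn, Nat.le_floor_iff hX]
  have hYle : ∀ T : ℕ, Y ≤ T ↔ Yn ≤ T := fun T => by rw [hYn, Nat.ceil_le]
  have hyY : y₀ ≤ Yn := by
    have : (y₀ : ℝ) ≤ Yn := by
      rw [hYn]
      exact hY.trans (Nat.le_ceil _)
    exact_mod_cast this
  have hrc : ∀ v : HeightOneSpectrum (𝓞 K), Ideal.absNorm v.asIdeal ≤ Xn → rc v ∣ L := fun v hv =>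
    hLq (rc v) (rc_prime v).one_lt.le ((hXle _).2 ((rc_le v).trans hv))
  obtain ⟨Rb', hRb'⟩ : ∃ Rb' : Set (HeightOneSpectrum (𝓞 K)), Rb' = Rb ∩ {v | Ideal.absNorm v.asIdeal ≤ Xn} := ⟨_, rfl⟩
  obtain ⟨h1, h2⟩ := hR2 (md L fun k => z (finProdFinEquiv.symm k)) Yn Xn hyY
    (fun T h1 h2 => hRT T ((hYle T).2 h1) ((hXle T).2 h2)) Rb'
    (fun v hv => by
      rw [hRb'] at hv
      exact eval_md ω P z v hL (hrc v hv.2) (hRb v hv.1))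
  have hBB : ∀ v : HeightOneSpectrum (𝓞 K), Ideal.absNorm v.asIdeal ≤ Xn →
      BB k (mkv v) (mem F₀ h (cf ω (md L fun k => z (finProdFinEquiv.symm k)))) = BB k (mkv v) (mem F₀ h (cz ω z)) :=
    fun v hv => BB_congr k (mkv v) F₀ h _ _ fun i => cf_md ω z v hL (hrc v hv) i
  have hnot : ∀ v : HeightOneSpectrum (𝓞 K), Ideal.absNorm v.asIdeal ≤ Xn →
      (v ∉ Rb' ↔ v ∉ Rb) := by
    intro v hv
    rw [not_iff_not, hRb']
    exact ⟨fun h => h.1, fun h => ⟨h, hv⟩⟩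
  refine ⟨fun T hT hTX j hj => ?_, fun T₁ T₂ hT hT12 hTX j hj s hs1 hs2 => ?_⟩
  · have h3 := h1 T ((hYle T).1 hT) ((hXle T).1 hTX) j hj
    have h4 : ∑ v ∈ (VT K T).filter (fun v => v ∉ Rb), w j v * ((BB k (mkv v) (mem F₀ h (cz ω z)) -
        (2 + r) * Ideal.absNorm v.asIdeal) * Real.log (Ideal.absNorm v.asIdeal)) =
        ∑ v ∈ (VT K T).filter (fun v => v ∉ Rb'), w j v *
          ((BB k (mkv v) (mem F₀ h (cf ω (md L fun k => z (finProdFinEquiv.symm k)))) -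
        (2 + r) * Ideal.absNorm v.asIdeal) * Real.log (Ideal.absNorm v.asIdeal)) := by
      refine sum_congr (filter_congr fun v hv => ?_) fun v hv => ?_
      · rw [mem_VT] at hv
        exact (hnot v (hv.trans ((hXle T).1 hTX))).symm
      · rw [mem_filter, mem_VT] at hv
        rw [hBB v (hv.1.trans ((hXle T).1 hTX))]
    rw [h4]
    exact h3
  · have hT2 : T₂ ≤ Xn := (hXle T₂).1 hTX
    have h3 := h2 T₁ T₂ ((hYle T₁).1 hT) hT12 hT2 j hj s hs1 hs2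
    have h4 : ∑ v ∈ (VT K T₂).filter (fun v => v ∉ Rb ∧ T₁ < Ideal.absNorm v.asIdeal),
        ((w j v * ((BB k (mkv v) (mem F₀ h (cz ω z)) - (2 + r) * Ideal.absNorm v.asIdeal) *
          Real.log (Ideal.absNorm v.asIdeal)) : ℝ) : ℂ) * (Ideal.absNorm v.asIdeal : ℂ) ^ (-s) =
        ∑ v ∈ (VT K T₂).filter (fun v => v ∉ Rb' ∧ T₁ < Ideal.absNorm v.asIdeal),
        ((w j v * ((BB k (mkv v) (mem F₀ h (cf ω (md L fun k => z (finProdFinEquiv.symm k)))) -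
          (2 + r) * Ideal.absNorm v.asIdeal) * Real.log (Ideal.absNorm v.asIdeal)) : ℝ) : ℂ) *
          (Ideal.absNorm v.asIdeal : ℂ) ^ (-s) := by
      refine sum_congr (filter_congr fun v hv => ?_) fun v hv => ?_
      · rw [mem_VT] at hv
        rw [hnot v (hv.trans hT2)]
      · rw [mem_filter, mem_VT] at hv
        rw [hBB v (hv.1.trans hT2)]
    rw [h4]
    exact h3

/-- the separation hypotheses in one structure -/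
structure Hyp (F₀ : (MvPolynomial (Fin (m + 1)) (𝓞 K))[X]) (h : Fin D → (MvPolynomial (Fin (m + 1)) (𝓞 K))[X]) (r C₀ : ℝ)
    (S : Set (HeightOneSpectrum (𝓞 K))) (P : MvPolynomial (Fin D) (𝓞 K)) (ω : Fin g → 𝓞 K) : Prop where
  mon : F₀.Monic
  odd : Odd F₀.natDegree
  deg : ∀ i, (h i).natDegree < F₀.natDegree
  fin : S.Finite
  sep : ∀ v ∉ S, SepV v h
  bas : ∀ v ∉ S, |(cc v F₀ h : ℝ) - cb v h - r * (Ideal.absNorm v.asIdeal : ℝ) ^ (m + 1)| ≤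
      C₀ * ((Ideal.absNorm v.asIdeal : ℝ) ^ (m + 1) / Real.sqrt (Ideal.absNorm v.asIdeal))
  ne : P ≠ 0
  span : Submodule.span ℤ (Set.range ω) = ⊤

open Classical in
/-- **Metric sequences.** -/
theorem surf_metric (k : ℕ) (F₀ : (MvPolynomial (Fin (m + 1)) (𝓞 K))[X]) (h : Fin D → (MvPolynomial (Fin (m + 1)) (𝓞 K))[X])
    (r C₀ : ℝ) (S : Set (HeightOneSpectrum (𝓞 K))) (P : MvPolynomial (Fin D) (𝓞 K)) (ω : Fin g → 𝓞 K)
    (hyp : Hyp F₀ h r C₀ S P ω) {κ₁ : ℝ} (hκ₁ : 0 < κ₁) (δ : ℝ) (hδ : 0 < δ) (A B : ℕ) :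
    ∃ κ : ℝ, 0 < κ ∧ ∀ (D' : Set ℕ) (x : ℕ → Fin D × Fin g → ℤ), WD D' x κ₁ → ∃ y₀ : ℕ, ∀ y N : ℕ, y₀ ≤ y →
      ∀ w : ℕ → HeightOneSpectrum (𝓞 K) → ℝ, (∀ n v, |w n v| ≤ 1) → ∀ E : (Fin D × Fin g → ℤ) → Prop,
      (∀ z, SG k F₀ h r P δ B w y ((N : ℝ) ^ κ) (cz ω z) → E z) →
      (((blk D' N).filter fun t => ¬ E (x t)).card : ℝ) ≤ 1 / (y : ℝ) ^ A * (blk D' N).card := by
  obtain ⟨g', hg'⟩ := hyp.odd
  obtain ⟨Me, y₁, h1⟩ := surf_engZ k F₀ h hyp.mon hg' (fun i => by rw [← hg']; exact hyp.deg i) r C₀ S hyp.fin hyp.sep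
    hyp.bas P hyp.ne ω hyp.span δ hδ A B
  obtain ⟨κ, hκ, h2⟩ := wd_conv (d := D * g) hκ₁ Me
  refine ⟨κ, hκ, fun D' x hx => ?_⟩
  obtain ⟨y₂, h3⟩ := h2 D' (fun n i => x n (finProdFinEquiv.symm i)) (wd_equiv finProdFinEquiv.symm hx)
  refine ⟨y₁ + y₂, fun y N hy w hw E hE => ?_⟩
  obtain ⟨R, hR1, hR2⟩ := h1 w hw
  have h4 := h3 y N A (by omega) R (fun S v H hWell E' hE' => hR1 S v H y hWell (by omega) E' hE')
    (fun c => E fun p => c (finProdFinEquiv p)) (fun c L hL hLq hRn => hE _ ?_)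
  · refine le_trans (le_of_eq ?_) h4
    have e : ∀ t, (fun p => x t (finProdFinEquiv.symm (finProdFinEquiv p))) = x t := fun t => by
      funext p
      rw [Equiv.symm_apply_apply]
    simp only [e]
  · refine hR2 _ y _ (by exact_mod_cast (by omega : y₁ ≤ y)) L hL hLq fun T hT1 hT2 => ?_
    have e : (fun k => c (finProdFinEquiv (finProdFinEquiv.symm k))) = c := by
      funext k
      rw [Equiv.apply_symm_apply]
    rw [e]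
    exact hRn T (by exact_mod_cast hT1) hT2

/-- **Every large index.** -/
theorem surf_every (k : ℕ) (F₀ : (MvPolynomial (Fin (m + 1)) (𝓞 K))[X]) (h : Fin D → (MvPolynomial (Fin (m + 1)) (𝓞 K))[X])
    (r C₀ : ℝ) (S : Set (HeightOneSpectrum (𝓞 K))) (P : MvPolynomial (Fin D) (𝓞 K)) (ω : Fin g → 𝓞 K)
    (hyp : Hyp F₀ h r C₀ S P ω) (δ : ℝ) (hδ : 0 < δ) (B : ℕ) (ε C : ℝ) (hε : 0 < ε) (hC : 0 ≤ C) :
    ∃ κ : ℝ, 0 < κ ∧ ∀ w : ℕ → HeightOneSpectrum (𝓞 K) → ℝ, (∀ n v, |w n v| ≤ 1) → ∀ G : ℕ → ℝ, Tendsto G atTop atTop →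
    (∀ (u v : Fin D × Fin g → ℝ) (F : Fin D × Fin g → ℕ → ℝ → ℝ), (∀ i, ∀ᶠ t in atTop, BC.Cvx (u i) (v i) (G t) (F i t)) →
      ∀ᵐ ξ : Fin D × Fin g → ℝ, (∀ i, ξ i ∈ Set.Ioc (u i) (v i)) → ∀ᶠ t in atTop, ∀ z : Fin D × Fin g → ℤ,
        (∀ i, |(z i : ℝ) - F i t (ξ i)| ≤ (t : ℝ) ^ C) → SG k F₀ h r P δ B w ((t : ℝ) ^ ε) ((G t) ^ κ) (cz ω z)) ∧
    (∀ g' c : Fin D × Fin g → ℕ → ℝ, (∀ i, ∀ᶠ t in atTop, G t ≤ g' i t) →
      ∀ᵐ ξ : Fin D × Fin g → ℝ, ∀ᶠ t in atTop, ∀ z : Fin D × Fin g → ℤ,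
        (∀ i, |(z i : ℝ) - (ξ i * g' i t + c i t)| ≤ (t : ℝ) ^ C) → SG k F₀ h r P δ B w ((t : ℝ) ^ ε) ((G t) ^ κ) (cz ω z)) ∧
    (∀ (b : ℝ) (g' : Fin D × Fin g → ℕ → ℕ) (c : Fin D × Fin g → ℕ → ℝ), 1 < b → (∀ i, ∀ᶠ t in atTop, G t ≤ b ^ g' i t) →
      ∀ᵐ ξ : Fin D × Fin g → ℝ, (∀ i, b < ξ i) → ∀ᶠ t in atTop, ∀ z : Fin D × Fin g → ℤ,
        (∀ i, |(z i : ℝ) - (ξ i ^ g' i t + c i t)| ≤ (t : ℝ) ^ C) → SG k F₀ h r P δ B w ((t : ℝ) ^ ε) ((G t) ^ κ) (cz ω z)) := by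
  obtain ⟨g₁, hg'⟩ := hyp.odd
  obtain ⟨A, hA⟩ := exists_nat_ge ((2 + C * ((D * g : ℕ) : ℝ)) / ε)
  have hA' : 2 + C * ((D * g : ℕ) : ℝ) ≤ ε * A := by
    rw [div_le_iff₀ hε] at hA
    linarith
  obtain ⟨Me, y₁, h1⟩ := surf_engZ k F₀ h hyp.mon hg' (fun i => by rw [← hg']; exact hyp.deg i) r C₀ S hyp.fin hyp.sep
    hyp.bas P hyp.ne ω hyp.span δ hδ A B
  refine ⟨1 / (3 * (Me + 1)), by positivity, fun w hw G hG => ?_⟩
  obtain ⟨R, hR1, hR2⟩ := h1 w hw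
  obtain ⟨k1, k2, k3⟩ := BC.bc_conv (d := D * g) finProdFinEquiv.symm A Me y₁ R
    (fun S v H y hWell hy E hE => by
      have := hR1 S v H y hWell hy E hE
      convert this using 4) ε C hε hC hA' G hG
  have hy : ∀ᶠ t : ℕ in atTop, (y₁ : ℝ) ≤ (t : ℝ) ^ ε :=
    ((tendsto_rpow_atTop hε).comp tendsto_natCast_atTop_atTop).eventually (eventually_ge_atTop (y₁ : ℝ))
  refine ⟨fun u v F hF => ?_, fun g' c hg => ?_, fun b g' c hb hg => ?_⟩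
  · filter_upwards [k1 u v F hF] with ξ hξ hξ2
    filter_upwards [hξ hξ2, hy] with t ht1 ht2 z hz
    obtain ⟨L, hL, hLq, hT⟩ := ht1 z hz
    exact hR2 z _ _ ht2 L hL hLq hT
  · filter_upwards [k2 g' c hg] with ξ hξ
    filter_upwards [hξ, hy] with t ht1 ht2 z hz
    obtain ⟨L, hL, hLq, hT⟩ := ht1 z hz
    exact hR2 z _ _ ht2 L hL hLq hT
  · filter_upwards [k3 b g' c hb hg] with ξ hξ hξ2
    filter_upwards [hξ hξ2, hy] with t ht1 ht2 z hz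
    obtain ⟨L, hL, hLq, hT⟩ := ht1 z hz
    exact hR2 z _ _ ht2 L hL hLq hT

end Pool.Agent.Helper94.SF
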